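import Pool.Agent.H48.CN.Main

/-!
# Infinitely many congruent number curves have rank at least four

`E_n : y^2 = x^3 - n^2 x`, the quadratic twist of `y^2 = x^3 - x` by the squarefree integer `n`.

For a rational point `(s, y)` on the genus one curve `-2 y^2 = 9 s^3 - 13 s^2 + 15 s - 9` (rank one)
and `n = 3 s (3 s^2 - 2 s + 3) (3 s^2 + 2 s + 3)` the curve `n Y^2 = X^3 - X` has four explicit
rational points; two of them exist for every `s`, the other two need the point. With
`a = 3 (3 s^2 - 2 s + 3)`, `b = 3 (3 s^2 + 2 s + 3)` their images under the complete 2-descent
are `(a, b)`, `(b, ab)`, `(ab, b)`, `(b, a)`, so they are independent as soon as `a`, `b`, `2` are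
independent modulo squares; this is checked modulo `7` and `71` and holds for all multiples
`m P` of the generator with `m` in an arithmetic progression. Finally, infinitely many square
classes of `n` occur: if they were finitely many, one prime `l = -1 mod 4 N` for all of them would
make the sign of `n` periodic in `m`, but the multiples of a point of infinite order on the real
circle cannot stay in the arc where `n > 0`. No height theory and no theorem on rational points of
curves of higher genus is used.
-/

namespace Pool.Agent.Results.MP_157626_nt.CongruentRankFour

open WeierstrassCurve

/-- The congruent number curve `y^2 = x^3 - n^2 x` over the rational numbers. -/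
def congruentCurve (n : ℕ) : WeierstrassCurve.Affine ℚ := ⟨0, 0, 0, -(n : ℚ) ^ 2, 0⟩

/-- There are infinitely many squarefree positive integers `n` such that the congruent number curve
`y^2 = x^3 - n^2 x` has Mordell-Weil rank at least `4` over the rational numbers. -/
theorem result :
    {n : ℕ | Squarefree n ∧ 4 ≤ Module.rank ℤ (congruentCurve n).Point}.Infinite := by
  refine H48.CN.RR_infinite.mono ?_
  rintro n ⟨hn, P, hP⟩
  refine ⟨hn, ?_⟩
  change 4 ≤ Module.rank ℤ (H48.CN.En (n : ℚ)).Point
  simpa using hP.cardinal_le_rank

end Pool.Agent.Results.MP_157626_nt.CongruentRankFour
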