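import Pool.Agent.helper5.CT.Main

/-!
# Infinitely many curves `x^3 + y^3 = n` have rank at least four

`E_n : x^3 + y^3 = n`, Weierstrass model `y^2 = x^3 - 432 n^2`, is the cubic twist by `n` of the
Fermat cubic. With `u = 1`, `g` a parameter and

`N(g) = 14 (g^2+1) (g^2+6) (6g^2+1) (g^4+4g^2+2) (2g^4+4g^2+1) (g^4+5g^2+1) (2g^4+9g^2+2) A B C E`,

`A = 4g^5+4g^4+20g^3-3g^2+4g-1`, `B = -A(-g)`, `C = g^5+4g^4+3g^3+20g^2-4g+4`, `E = -C(-g)`,
the curve `X Y (X + Y) = N(g)` has four points, coming from four identities
`a z^3 + b w^3 + c = 0` with `a b c = N(g)`. Their images under the descent map at the rational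
point of order three are `b / a` modulo cubes, and for `g = 36` modulo a suitable integer they are
independent, together with the class of the torsion point: this is seen from the valuations at
`2, 3, 7, 11, 13`. The 3-isogeny to `E_n` has kernel the torsion points, so the images are
independent on `E_n`. For every prime `l = 1 mod 4`, `l > 13`, some such `g` has `l` exactly
dividing `N(g)`, so the cube-free parts are unbounded.
-/

namespace Pool.Agent.Results.MP_157626_nt.CubeSumRankFour

open WeierstrassCurve

/-- The elliptic curve `x^3 + y^3 = n` in its Weierstrass form `y^2 = x^3 - 432 n^2`. -/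
def cubeSumCurve (n : ℕ) : WeierstrassCurve.Affine ℚ := ⟨0, 0, 0, 0, -432 * (n : ℚ) ^ 2⟩

/-- There are infinitely many cube-free positive integers `n` such that the elliptic curve
`x^3 + y^3 = n`, that is `y^2 = x^3 - 432 n^2`, has Mordell-Weil rank at least `4` over the
rational numbers. -/
theorem result :
    {n : ℕ | (0 < n ∧ ∀ d : ℕ, d ^ 3 ∣ n → d = 1) ∧
      4 ≤ Module.rank ℤ (cubeSumCurve n).Point}.Infinite := by
  refine Pool.Agent.helper5.CT.infinite_twists.mono ?_
  rintro n ⟨hn, P, hP⟩
  have hpos : 0 < n := by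
    rcases Nat.eq_zero_or_pos n with h | h
    · exact absurd (hn 2 (by rw [h]; exact dvd_zero _)) (by norm_num)
    · exact h
  refine ⟨⟨hpos, hn⟩, ?_⟩
  have h : cubeSumCurve n = Pool.Agent.helper5.CT.Cb (4 * (n : ℚ)) := by
    unfold cubeSumCurve Pool.Agent.helper5.CT.Cb H48.CN.Wc
    congr 1
    ring
  rw [h]
  simpa using hP.cardinal_le_rank

end Pool.Agent.Results.MP_157626_nt.CubeSumRankFour
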