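import Pool.Agent.helper28.TW.Norm

/-!
# Quadratic twists of rank >= 4 for curves with full 2-torsion and a point of order 3 or 4

Let `E : y^2 = (x - e₁) (x - e₂) (x - e₃)` with distinct rational `e₁`, `e₂`, `e₃`, and suppose that
some quadratic twist of `E` has a rational point of order `3` or `4`. Equivalently, the isogeny class
of `E` contains another curve `E'` with full rational 2-torsion (with an isogeny of degree `3`
or `2`).

* Order four: up to twist `E : y^2 = x (x - 1) (x - s^2)`, `0 < s < 1`, is 2-isogenous to
  `y^2 = x (x + (1 + s)^2) (x + (1 - s)^2)`.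
* Order three: up to twist `E : y^2 = x (x - 1) (x - l)` with `l = t^3 (t + 2) / (2 t + 1)`, `t > 1`;
  it is 3-isogenous to the curve with `l' = t (t + 2)^3 / (2 t + 1)^3`.

In both cases there are three Moebius transformations `M` over the rational numbers which map three
of the four points `0, 1, l, oo` to three branch points of `E` or of `E'` and send the fourth branch
point to a point `m` with `f(M(u)) = f(u) (a u + b)` up to squares, the same `u = oo` being left out
each time. So on the twist by `D = f(u)` there are four points (one of them `(u, 1)`) as soon as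
three affine functions of `u` are squares. This defines a curve of genus one which has, for EVERY
value of the parameter, an explicit rational point; for order three it is

`u = t^3 (t + 2) (2 + 2 t - t^2) / (t^3 + 3 t^2 - 1)^2`,

and it has infinite order since it is not integral at a prime `p >= 5` dividing the numerator of
`t^3 + 3 t^2 - 1` (such a prime exists for every rational `t > 1`, and a torsion point is integral
at `p`). Independence: canonical heights on all twists at once. For two of the four points `P`,
`Q`, the abscissae of `P + Q` and `P - Q` are values at `r` and `-r` of one rational function of the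
coordinate `r` of a conic, so the height pairing of `P` and `Q` is bounded, while the heights of the
points tend to infinity. Infinitely many square classes of `D` occur, because otherwise one prime
`p = -1 mod 4 N` would make the sign of `D` constant along an arithmetic progression of multiples of
the base point, but these cannot stay in an arc of the oval cut out by `u = 0`. No theorem on rational
points of curves of higher genus is used.
-/

namespace Pool.Agent.Results.MP_157626_nt.FullTwoTorsionRankFour

open WeierstrassCurve

/-- The quadratic twist by `D` of the elliptic curve `y^2 = (x - e₁) (x - e₂) (x - e₃)`, that is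
`y^2 = (x - D e₁) (x - D e₂) (x - D e₃)`. -/
def twist (e₁ e₂ e₃ : ℚ) (D : ℤ) : WeierstrassCurve.Affine ℚ :=
  ⟨0, -(D * (e₁ + e₂ + e₃)), 0, (D : ℚ) ^ 2 * (e₁ * e₂ + e₁ * e₃ + e₂ * e₃),
    -((D : ℚ) ^ 3 * (e₁ * e₂ * e₃))⟩

/-- Let `e₁`, `e₂`, `e₃` be distinct rational numbers. If some quadratic twist (by a nonzero integer
`D₀`) of `y^2 = (x - e₁) (x - e₂) (x - e₃)` has a rational point of order `3` or `4`, then there are
infinitely many squarefree integers `D` such that the quadratic twist by `D` has Mordell-Weil rank
at least `4`. -/
theorem result (e₁ e₂ e₃ : ℚ) (h12 : e₁ ≠ e₂) (h13 : e₁ ≠ e₃) (h23 : e₂ ≠ e₃)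
    (D₀ : ℤ) (hD₀ : D₀ ≠ 0) (P : (twist e₁ e₂ e₃ D₀).Point)
    (hP : addOrderOf P = 3 ∨ addOrderOf P = 4) :
    {D : ℤ | Squarefree D ∧ 4 ≤ Module.rank ℤ (twist e₁ e₂ e₃ D).Point}.Infinite := by
  have hd : ((D₀ : ℤ) : ℚ) ≠ 0 := by exact_mod_cast hD₀
  have h : H28.TW.Four e₁ e₂ e₃ := by
    rcases hP with hP | hP
    · exact H28.TW.order3 hd h12 h13 h23 (P : (H79.Tw.Wt e₁ e₂ e₃ (D₀ : ℚ)).Point) hP
    · exact H28.TW.order4 hd h12 h13 h23 (P : (H79.Tw.Wt e₁ e₂ e₃ (D₀ : ℚ)).Point) hP
  refine h.mono ?_
  rintro D ⟨hD, P, hP⟩
  refine ⟨hD, ?_⟩
  change 4 ≤ Module.rank ℤ (H79.Tw.Wt e₁ e₂ e₃ (D : ℚ)).Point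
  simpa using hP.cardinal_le_rank

end Pool.Agent.Results.MP_157626_nt.FullTwoTorsionRankFour
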