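import Pool.Agent.helper40.Sq.Fin

/-!
# Every elliptic curve with square discriminant has infinitely many quadratic twists of rank >= 3

Let `E : y^2 = x^3 + a x + b` be an elliptic curve over the rational numbers whose discriminant is a
square; equivalently, the cubic splits completely or generates a cyclic cubic field. Up to a
quadratic twist `E` is the curve `y^2 = P(x)`, `P(x) = x^3 - A x^2 + (A - 3) x + 1`, whose roots are
permuted by `x -> 1 / (1 - x)`.

* For `z = 1 + v^2` the twist `P(z) y^2 = P(x)` contains the points with abscissae `z` and
  `1 / (1 - z) = -1 / v^2`, and it contains a third point, with abscissa another root of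
  `P(x) = P(z)`, as soon as `w^2 = -3 v^4 + (2 A - 6) v^2 + A^2 - 2 A + 9`. This curve of genus one
  has, for EVERY `A`, the rational point `(v, w) = (1, A)`.
* It is the double cover `x = -3 v^2` of the elliptic curve
  `y^2 = x^3 + (2 A - 6) x^2 - 3 (A^2 - 2 A + 9) x`. The odd multiples of the point `(-3, 3 A)` lift to
  it. With `A = p / q` the double of this point is not integral at some prime unless `p` is `0`,
  `2`, `-2`, `6` or `-6`; this happens neither for `A` nor for `3 - A`, which is another parameter
  for the same curve `E`.
* Independence: canonical heights, uniformly in the twist. With `L = 2 h(v)` the Gram matrix of the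
  three points is `L` times a matrix with diagonal `1, 1, 1` and entries `0`, `-1 / 2` and `τ` outside
  the diagonal, up to bounded errors, and `|τ| <= 3 / 4`, because the abscissa `s` of the sum of the second and
  the third point satisfies an equation of degree `8` in `v` which makes `v s` integral over the
  polynomials in `s` with `h(v) <= h(s) + O(1)`. This matrix is nondegenerate.
* Infinitely many twists: if only finitely many square classes of `P(1 + v^2)` occurred, one prime
  `p = -1 mod 4 N` would make the sign of `P(1 + v^2)` constant along an arithmetic progression of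
  multiples of the point, but these cannot stay in one of the two arcs of the oval of the real
  elliptic curve where this sign is constant.
* The case `b = 0` is contained in the theorem on curves with full rational 2-torsion (the same
  method with other points).
-/

namespace Pool.Agent.Results.MP_157626_nt.SquareDiscriminantRankThree

open WeierstrassCurve

/-- The quadratic twist by `D` of the elliptic curve `y^2 = x^3 + a x + b`, that is
`y^2 = x^3 + a D^2 x + b D^3`. -/
def twist (a b : ℚ) (D : ℤ) : WeierstrassCurve.Affine ℚ :=
  ⟨0, 0, 0, a * (D : ℚ) ^ 2, b * (D : ℚ) ^ 3⟩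

/-- Every elliptic curve `y^2 = x^3 + a x + b` over the rational numbers whose discriminant
`16 (-4 a^3 - 27 b^2)` is a (nonzero) square of a rational number has infinitely many quadratic
twists by squarefree integers whose Mordell-Weil rank is at least `3`. -/
theorem result (a b : ℚ) (h0 : -4 * a ^ 3 - 27 * b ^ 2 ≠ 0)
    (hsq : IsSquare (-4 * a ^ 3 - 27 * b ^ 2)) :
    {D : ℤ | Squarefree D ∧ 3 ≤ Module.rank ℤ (twist a b D).Point}.Infinite := by
  obtain ⟨δ, hδ⟩ := hsq
  have hδ0 : δ ≠ 0 := by
    rintro rfl
    exact h0 (by rw [hδ]; ring)
  refine (H40.Sq.sq_infinite hδ0 (by rw [hδ]; ring)).mono ?_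
  rintro D ⟨hD, P, hP⟩
  refine ⟨hD, ?_⟩
  change 3 ≤ Module.rank ℤ (H40.Sq.WD a b (D : ℚ)).Point
  simpa using hP.cardinal_le_rank

end Pool.Agent.Results.MP_157626_nt.SquareDiscriminantRankThree
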